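import Pool.Agent.H48.HMS.Stm

set_option autoImplicit false

namespace Pool.HMS

open TMLib Turing

namespace Mach

/-- alphabets: the input stack `none` is over `Option Bool`, the four others over `Bool` -/
def Γm : Option Stk → Type
  | none => Option Bool
  | some _ => Bool

/-- internal states -/
abbrev Sg : Type := Option (Option Bool)

/-- contents of the stacks -/
def stk (L : List (Option Bool)) (s : St) : ∀ k, List (Γm k)
  | none => L
  | some k => s.get k

/-- overwrite a stack of bits -/
def upS (f : ∀ k, List (Γm k)) (k : Stk) (l : List Bool) : ∀ k, List (Γm k) :=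
  Function.update f (some k) l

/-- overwrite the input stack -/
def upN (f : ∀ k, List (Γm k)) (l : List (Option Bool)) : ∀ k, List (Γm k) :=
  Function.update f none l

theorem update_some (L : List (Option Bool)) (s : St) (k : Stk) (l : List Bool) :
    upS (stk L s) k l = stk L (s.set k l) := by
  funext k'
  cases k' with
  | none => rfl
  | some k' => cases k <;> cases k' <;> rfl

theorem update_none (L L' : List (Option Bool)) (s : St) :
    upN (stk L s) L' = stk L' s := by
  funext k'
  cases k' <;> rfl

/-- test of the top of a stack -/
def test {Λ : Type} (k : Stk) (f : Option Bool → Bool) (l₁ l₂ : Λ) : TM2.Stmt Γm Λ Sg :=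
  .peek (some k) (fun _ (o : Option Bool) => o.map some)
    (.branch (fun v => f (v.bind id)) (.load (fun _ => none) (.goto fun _ => l₁))
      (.load (fun _ => none) (.goto fun _ => l₂)))

/-- the statement at each program point -/
def stmtOf {Λ : Type} : (p : Prog) → (Lbl p → Λ) → Λ → Lbl p → TM2.Stmt Γm Λ Sg
  | .skip, _, ex, _ => .goto fun _ => ex
  | .push k b, _, ex, _ => .push (some k) (fun _ => (b : Bool)) (.goto fun _ => ex)
  | .pop k, _, ex, _ => .pop (some k) (fun s _ => s) (.goto fun _ => ex)
  | .seq p q, ι, ex, l =>
      Sum.rec (fun l => stmtOf p (fun x => ι (Sum.inl x)) (ι (Sum.inr (entry q))) l)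
        (fun l => stmtOf q (fun x => ι (Sum.inr x)) ex l) l
  | .ite k f p q, ι, ex, l =>
      Option.rec (test k f (ι (some (Sum.inl (entry p)) : Option _))
          (ι (some (Sum.inr (entry q)) : Option _)))
        (fun l => Sum.rec (fun l => stmtOf p (fun x => ι (some (Sum.inl x) : Option _)) ex l)
          (fun l => stmtOf q (fun x => ι (some (Sum.inr x) : Option _)) ex l) l) l
  | .loop k f p, ι, ex, l =>
      Option.rec (test k f (ι (some (entry p) : Option _)) ex)
        (fun l => stmtOf p (fun x => ι (some x : Option _)) (ι (none : Option _)) l) l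

/-- configuration -/
def cfg {Λ : Type} (l : Option Λ) (L : List (Option Bool)) (s : St) : TM2.Cfg Γm Λ Sg :=
  ⟨l, none, stk L s⟩

/-- reachability in exactly `t` steps -/
def Reach {Λ : Type} (M : Λ → TM2.Stmt Γm Λ Sg) (c c' : TM2.Cfg Γm Λ Sg) (t : ℕ) : Prop :=
  (flip bind (TM2.step M))^[t] (some c) = some c'

theorem Reach.trans {Λ : Type} {M : Λ → TM2.Stmt Γm Λ Sg} {c c' c''} {t t' : ℕ}
    (h : Reach M c c' t) (h' : Reach M c' c'' t') : Reach M c c'' (t + t') := by
  unfold Reach at *
  rw [Nat.add_comm, Function.iterate_add_apply, h, h']

theorem Reach.one {Λ : Type} {M : Λ → TM2.Stmt Γm Λ Sg} {c c'}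
    (h : TM2.step M c = some c') : Reach M c c' 1 := by
  simpa [Reach, flip] using h

theorem stk_some (L : List (Option Bool)) (s : St) (k : Stk) :
    (stk L s (some k) : List Bool) = s.get k := rfl

theorem step_test {Λ : Type} (k : Stk) (f : Option Bool → Bool) (l₁ l₂ : Λ)
    (L : List (Option Bool)) (s : St) :
    TM2.stepAux (test k f l₁ l₂) none (stk L s) =
      cfg (some (cond (f (s.get k).head?) l₁ l₂)) L s := by
  have h0 : ((s.get k).head?.map some).bind id = (s.get k).head? := by
    cases (s.get k).head? <;> rfl
  have h1 : TM2.stepAux (test k f l₁ l₂) none (stk L s) =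
      cond (f (((s.get k).head?.map some).bind id))
        (cfg (some l₁) L s) (cfg (some l₂) L s) := rfl
  rw [h1, h0]
  cases f (s.get k).head? <;> rfl

/-- the compiled machine simulates the big-step semantics -/
theorem reach_of_run {Λ : Type} (M : Λ → TM2.Stmt Γm Λ Sg) {p : Prog} {s s' : St}
    {t : ℕ} (h : Run p s s' t) : ∀ (ι : Lbl p → Λ) (ex : Λ) (L : List (Option Bool)),
      (∀ l, M (ι l) = stmtOf p ι ex l) →
        Reach M (cfg (some (ι (entry p))) L s) (cfg (some ex) L s') t := by
  induction h with
  | skip s =>
    intro ι ex L hM
    apply Reach.one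
    change some (TM2.stepAux (M _) none (stk L s)) = _
    rw [hM]
    rfl
  | push k b s =>
    intro ι ex L hM
    apply Reach.one
    change some (TM2.stepAux (M _) none (stk L s)) = _
    rw [hM]
    change some (⟨some ex, none, upS (stk L s) k (b :: s.get k)⟩ :
      TM2.Cfg Γm Λ Sg) = _
    rw [update_some]
    rfl
  | pop k s =>
    intro ι ex L hM
    apply Reach.one
    change some (TM2.stepAux (M _) none (stk L s)) = _
    rw [hM]
    change some (⟨some ex, none, upS (stk L s) k (s.get k).tail⟩ :
      TM2.Cfg Γm Λ Sg) = _
    rw [update_some]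
    rfl
  | @seq p q s s' s'' t t' h1 h2 ih1 ih2 =>
    intro ι ex L hM
    exact (ih1 (fun x => ι (Sum.inl x)) (ι (Sum.inr (entry q))) L fun l => hM (Sum.inl l)).trans
      (ih2 (fun x => ι (Sum.inr x)) ex L fun l => hM (Sum.inr l))
  | @iteT k f p q s s' t hf h1 ih1 =>
    intro ι ex L hM
    refine Reach.trans (c' := cfg (some (ι (some (Sum.inl (entry p)) : Option _))) L s)
      (Reach.one ?_) (ih1 (fun x => ι (some (Sum.inl x) : Option _)) ex L
        fun l => hM (some (Sum.inl l) : Option _))
    have h0 := hM (none : Option _)
    change some (TM2.stepAux (M (ι (none : Option _))) none (stk L s)) = _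
    rw [h0]
    change some (TM2.stepAux (test k f _ _) none (stk L s)) = _
    rw [step_test, hf]
    rfl
  | @iteF k f p q s s' t hf h1 ih1 =>
    intro ι ex L hM
    refine Reach.trans (c' := cfg (some (ι (some (Sum.inr (entry q)) : Option _))) L s)
      (Reach.one ?_) (ih1 (fun x => ι (some (Sum.inr x) : Option _)) ex L
        fun l => hM (some (Sum.inr l) : Option _))
    have h0 := hM (none : Option _)
    change some (TM2.stepAux (M (ι (none : Option _))) none (stk L s)) = _
    rw [h0]
    change some (TM2.stepAux (test k f _ _) none (stk L s)) = _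
    rw [step_test, hf]
    rfl
  | @loopF k f p s hf =>
    intro ι ex L hM
    apply Reach.one
    have h0 := hM (none : Option _)
    change some (TM2.stepAux (M (ι (none : Option _))) none (stk L s)) = _
    rw [h0]
    change some (TM2.stepAux (test k f _ _) none (stk L s)) = _
    rw [step_test, hf]
    rfl
  | @loopT k f p s s' s'' t t' hf h1 h2 ih1 ih2 =>
    intro ι ex L hM
    refine Reach.trans (Reach.trans (c' := cfg (some (ι (some (entry p) : Option _))) L s)
      (Reach.one ?_) (ih1 (fun x => ι (some x : Option _)) (ι (none : Option _)) L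
        fun l => hM (some l : Option _))) (ih2 ι ex L hM)
    have h0 := hM (none : Option _)
    change some (TM2.stepAux (M (ι (none : Option _))) none (stk L s)) = _
    rw [h0]
    change some (TM2.stepAux (test k f _ _) none (stk L s)) = _
    rw [step_test, hf]
    rfl

/-- push a word on stack `m`, first letter pushed first -/
def pushes {Λ : Type} : List Bool → TM2.Stmt Γm Λ Sg → TM2.Stmt Γm Λ Sg
  | [], q => q
  | b :: l, q => .push (some .m) (fun _ => (b : Bool)) (pushes l q)

theorem step_pushes {Λ : Type} (w : List Bool) (q : TM2.Stmt Γm Λ Sg) :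
    ∀ (v : Sg) (L : List (Option Bool)) (s : St),
    TM2.stepAux (pushes w q) v (stk L s) =
      TM2.stepAux q v (stk L (s.set .m (w.reverse ++ s.m))) := by
  induction w with
  | nil => intro v L s; rfl
  | cons b w ih =>
    intro v L s
    change TM2.stepAux (pushes w q) v (upS (stk L s) .m (b :: s.get .m)) = _
    rw [update_some, ih]
    simp

/-- the word to be pushed for an input symbol -/
def word : Option Bool → List Bool
  | none => [false, true]
  | some false => [false, false, true, true]
  | some true => [false, false, false, true, true, true]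

theorem word_spec (o : Option Bool) (l : List (Option Bool)) :
    (word o).reverse ++ (enc l).code = (enc (o :: l)).code := by
  rcases o with _ | _ | _ <;> rfl

/-- labels of the machine -/
abbrev Λm (p : Prog) : Type := Lbl p ⊕ Option Bool

/-- the reading statement -/
def rd (p : Prog) : TM2.Stmt Γm (Λm p) Sg :=
  .pop none (fun _ (o : Option (Option Bool)) => o)
    (.branch (fun v => v.isNone) (.goto fun _ => Sum.inl (entry p))
      (.branch (fun v => decide (v = some none))
        (pushes (word none) (.load (fun _ => none) (.goto fun _ => Sum.inr (some false))))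
        (.branch (fun v => decide (v = some (some false)))
          (pushes (word (some false)) (.load (fun _ => none) (.goto fun _ => Sum.inr (some false))))
          (pushes (word (some true)) (.load (fun _ => none) (.goto fun _ => Sum.inr (some false)))))))

/-- the final statement -/
def fin (p : Prog) : TM2.Stmt Γm (Λm p) Sg :=
  .pop (some .m) (fun _ (o : Option Bool) => o.map some)
    (.branch (fun v => decide (v = some (some true)))
      (.pop (some .m) (fun _ _ => none) (.pop (some .m) (fun _ _ => none)
        (.push (some .a) (fun _ => true) .halt)))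
      (.load (fun _ => none) (.push (some .a) (fun _ => false) .halt)))

/-- all statements -/
def stm (p : Prog) : Λm p → TM2.Stmt Γm (Λm p) Sg
  | Sum.inl l => stmtOf p Sum.inl (Sum.inr (some true)) l
  | Sum.inr none => .push (some .m) (fun _ => false) (.goto fun _ => Sum.inr (some false))
  | Sum.inr (some false) => rd p
  | Sum.inr (some true) => fin p

/-- the machine -/
def mach (p : Prog) : FinTM2 where
  K := Option Stk
  k₀ := none
  k₁ := some .a
  Γ := Γm
  Λ := Λm p
  main := Sum.inr none
  σ := Sg
  initialState := none
  Γk₀Fin := inferInstanceAs (Fintype (Option Bool))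
  m := stm p

theorem reach_rd (p : Prog) : ∀ (L acc : List (Option Bool)),
    Reach (stm p) (cfg (some (Sum.inr (some false))) L (ms (enc acc).code))
      (cfg (some (Sum.inl (entry p))) [] (ms (enc (L.reverse ++ acc)).code)) (L.length + 1) := by
  intro L
  induction L with
  | nil =>
    intro acc
    apply Reach.one
    change some (⟨some (Sum.inl (entry p)), none,
      upN (stk [] (ms (enc acc).code)) []⟩ : TM2.Cfg Γm (Λm p) Sg) = _
    rw [update_none]
    rfl
  | cons o L ih =>
    intro acc
    have h1 : Reach (stm p) (cfg (some (Sum.inr (some false))) (o :: L) (ms (enc acc).code))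
        (cfg (some (Sum.inr (some false))) L (ms (enc (o :: acc)).code)) 1 := by
      apply Reach.one
      have hq : ∀ o : Option Bool, TM2.stepAux (pushes (word o)
          (.load (fun _ => none) (.goto fun _ => Sum.inr (some false)))) (some o)
          (upN (stk (o :: L) (ms (enc acc).code)) L) =
          (cfg (some (Sum.inr (some false))) L (ms (enc (o :: acc)).code) :
            TM2.Cfg Γm (Λm p) Sg) := by
        intro o
        rw [update_none, step_pushes, ← word_spec]
        rfl
      rcases o with _ | _ | _
      · exact congrArg some (hq none)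
      · exact congrArg some (hq (some false))
      · exact congrArg some (hq (some true))
    have h2 := h1.trans (ih (o :: acc))
    rw [List.reverse_cons, List.append_assoc, List.singleton_append, List.length_cons]
    rw [show L.length + 1 + 1 = 1 + (L.length + 1) by omega]
    exact h2

theorem reach_fin (p : Prog) (b : Bool) :
    Reach (stm p) (cfg (some (Sum.inr (some true))) [] (ms (enc b).code))
      (cfg none [] ⟨[], [b], [], []⟩) 1 := by
  apply Reach.one
  cases b
  · change some (⟨none, none, upS (upS (stk [] (ms [false])) .m
      []) .a [false]⟩ : TM2.Cfg Γm (Λm p) Sg) = _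
    rw [update_some, update_some]
    rfl
  · change some (⟨none, none, upS (upS (upS
      (upS (stk [] (ms [true, false, false])) .m
      [false, false]) .m [false]) .m []) .a [true]⟩ :
        TM2.Cfg Γm (Λm p) Sg) = _
    rw [update_some, update_some, update_some, update_some]
    rfl

theorem main_thm : S_MACH := by
  intro p F τ hF
  refine ⟨mach p, Equiv.refl (Option Bool), Equiv.refl Bool, fun L => ?_⟩
  obtain ⟨t, ht, hr⟩ := hF L
  have h0 : Reach (stm p) (cfg (some (Sum.inr none)) L ⟨[], [], [], []⟩)
      (cfg (some (Sum.inr (some false))) L (ms (enc ([] : List (Option Bool))).code)) 1 := by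
    apply Reach.one
    change some (⟨some (Sum.inr (some false)), none,
      upS (stk L ⟨[], [], [], []⟩) .m [false]⟩ :
        TM2.Cfg Γm (Λm p) Sg) = _
    rw [update_some]
    rfl
  have h1 := reach_rd p L []
  rw [List.append_nil] at h1
  have h2 := reach_of_run (stm p) hr Sum.inl (Sum.inr (some true)) [] (fun l => rfl)
  have h3 := reach_fin p (F L)
  have h4 := h0.trans (h1.trans (h2.trans h3))
  have e1 : initList (mach p) L = cfg (some (Sum.inr none)) L ⟨[], [], [], []⟩ := by
    simp only [initList, cfg]
    congr 1
    funext k
    rcases k with _ | k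
    · rfl
    · cases k <;> rfl
  have e2 : haltList (mach p) [F L] = cfg none [] ⟨[], [F L], [], []⟩ := by
    simp only [haltList, cfg]
    congr 1
    funext k
    rcases k with _ | k
    · rfl
    · cases k <;> rfl
  have h5 : Nonempty (TM2OutputsInTime (mach p) L (some [F L]) (τ L + 20 * (L.length + 1))) := by
    have hle : 1 + (L.length + 1 + (t + 1)) ≤ τ L + 20 * (L.length + 1) := by omega
    refine ⟨⟨⟨1 + (L.length + 1 + (t + 1)), ?_⟩, hle⟩⟩
    change (flip bind (TM2.step (stm p)))^[1 + (L.length + 1 + (t + 1))]
      (some (initList (mach p) L)) = some (haltList (mach p) [F L])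
    rw [e1, e2]
    exact h4
  have e3 : L.map (Equiv.refl (Option Bool)).symm = L := by
    simp
  have key : ∀ L' : List (Option Bool), L' = L →
      Nonempty (TM2OutputsInTime (mach p) L' (some [F L]) (τ L + 20 * (L.length + 1))) := by
    rintro _ rfl
    exact h5
  exact key _ e3

end Mach

theorem mach_thm : S_MACH := Mach.main_thm

end Pool.HMS
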