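import Pool.Agent.H48.HMS.Stm

set_option autoImplicit false

namespace Pool.HMS

open TMLib Finset

namespace Merge

/-- greedy filling of a row: given capacities `c j` with total at least `r`, there is a row `y ≤ c` with sum `r` -/
theorem exists_row {κ : Type} [Fintype κ] [DecidableEq κ] (c : κ → ℕ) (r : ℕ) (h : r ≤ ∑ j, c j) :
    ∃ y : κ → ℕ, (∀ j, y j ≤ c j) ∧ ∑ j, y j = r := by
  induction r with
  | zero => exact ⟨fun _ => 0, fun _ => Nat.zero_le _, by simp⟩
  | succ r ih =>
    obtain ⟨y, hy, hs⟩ := ih (by omega)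
    have : ∃ j, y j < c j := by
      by_contra hcon
      push Not at hcon
      have : ∑ j, c j ≤ ∑ j, y j := Finset.sum_le_sum fun j _ => hcon j
      omega
    obtain ⟨j0, hj0⟩ := this
    refine ⟨Function.update y j0 (y j0 + 1), fun j => ?_, ?_⟩
    · by_cases hj : j = j0
      · subst hj; simp; omega
      · simp [Function.update_of_ne hj]; exact hy j
    · rw [Finset.sum_update_of_mem (Finset.mem_univ _)]
      rw [← Finset.add_sum_erase _ _ (Finset.mem_univ j0)] at hs
      rw [Finset.sdiff_singleton_eq_erase]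
      omega

/-- a matrix with given row sums and column sums -/
theorem exists_matrix {ι κ : Type} [DecidableEq ι] [Fintype κ] [DecidableEq κ] (s : Finset ι)
    (r : ι → ℕ) :
    ∀ c : κ → ℕ, ∑ i ∈ s, r i = ∑ j, c j →
    ∃ x : ι → κ → ℕ, (∀ i ∈ s, ∑ j, x i j = r i) ∧ ∀ j, ∑ i ∈ s, x i j = c j := by
  induction s using Finset.induction_on with
  | empty =>
    intro c hc
    refine ⟨fun _ _ => 0, by simp, fun j => ?_⟩
    rw [Finset.sum_empty] at hc
    have := (Finset.sum_eq_zero_iff.1 hc.symm) j (Finset.mem_univ _)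
    simp [this]
  | insert a s ha ih =>
    intro c hc
    rw [Finset.sum_insert ha] at hc
    obtain ⟨y, hy, hys⟩ := exists_row c (r a) (by omega)
    have h1 : ∑ j, (c j - y j) = ∑ j, c j - ∑ j, y j :=
      Finset.sum_tsub_distrib _ fun j _ => hy j
    obtain ⟨x, hx, hxc⟩ := ih (fun j => c j - y j) (by rw [h1]; omega)
    refine ⟨Function.update x a y, fun i hi => ?_, fun j => ?_⟩
    · by_cases hia : i = a
      · subst hia; simp [hys]
      · rw [Function.update_of_ne hia]
        exact hx i (by
          rcases Finset.mem_insert.1 hi with h | h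
          · exact absurd h hia
          · exact h)
    · rw [Finset.sum_insert ha]
      have : ∑ i ∈ s, Function.update x a y i j = ∑ i ∈ s, x i j := by
        refine Finset.sum_congr rfl fun i hi => ?_
        rw [Function.update_of_ne (fun h => ha (by rw [← h]; exact hi))]
      rw [this, hxc j]
      simp
      have := hy j
      omega

theorem sum_fin_get {α : Type} (l : List α) (f : α → ℕ) :
    ∑ i : Fin l.length, f (l.get i) = (l.map f).sum := by
  have : l.map f = List.ofFn fun i : Fin l.length => f (l.get i) := by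
    apply List.ext_get
    · simp
    · intro n h1 h2
      simp
  rw [this, List.sum_ofFn]

theorem cnt_eq (l : List (ℕ × ℕ)) (a : ℕ) :
    cnt l a = ∑ i : Fin l.length, if (l.get i).1 = a then (l.get i).2 else 0 := by
  rw [sum_fin_get l (fun q => if q.1 = a then q.2 else 0)]
  unfold cnt
  induction l with
  | nil => rfl
  | cons q l ih =>
    by_cases h : q.1 = a
    · simp [h]; simpa using ih
    · simp [h]; simpa using ih

theorem tms_sum (h : S_DDP) (l : List (ℕ × ℕ)) (g : ℕ → ℕ) :
    ((tms l).map g).sum = ∑ a ∈ (tms l).toFinset, g a := by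
  have hn : (tms l).Nodup := ((h ℕ).1 _).1.filter _
  rw [List.sum_toFinset _ hn]

theorem mem_tms (h : S_DDP) (l : List (ℕ × ℕ)) (a : ℕ) :
    a ∈ (tms l).toFinset ↔ a ≠ 0 ∧ ∃ i : Fin l.length, (l.get i).1 = a := by
  rw [List.mem_toFinset]
  unfold tms
  rw [List.mem_filter, ((h ℕ).1 _).2.1]
  simp only [List.mem_map, decide_eq_true_eq]
  constructor
  · rintro ⟨⟨q, hq, rfl⟩, h0⟩
    obtain ⟨i, rfl⟩ := List.get_of_mem hq
    exact ⟨h0, i, rfl⟩
  · rintro ⟨h0, i, rfl⟩
    exact ⟨⟨l.get i, List.get_mem _ _, rfl⟩, h0⟩

end Merge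

open Merge in
theorem merge_thm (h : S_DDP) : S_MERGE := by
  intro m T l
  -- load of a machine in terms of sizes
  have key : ∀ y : Fin l.length → ℕ,
      ∑ a ∈ (tms l).toFinset, (∑ i, if (l.get i).1 = a then y i else 0) * a =
        ∑ i, y i * (l.get i).1 := by
    intro y
    have e1 : ∀ a ∈ (tms l).toFinset, (∑ i, if (l.get i).1 = a then y i else 0) * a =
        ∑ i, if (l.get i).1 = a then y i * (l.get i).1 else 0 := by
      intro a _
      rw [Finset.sum_mul]
      refine Finset.sum_congr rfl fun i _ => ?_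
      split_ifs with hh
      · rw [hh]
      · simp
    rw [Finset.sum_congr rfl e1, Finset.sum_comm]
    refine Finset.sum_congr rfl fun i _ => ?_
    rw [Finset.sum_ite_eq]
    split_ifs with hh
    · rfl
    · have : (l.get i).1 = 0 := by
        by_contra h0
        exact hh ((mem_tms h l _).2 ⟨h0, i, rfl⟩)
      rw [this]; simp
  constructor
  · rintro ⟨x, hx, hT⟩
    refine ⟨?_, fun j a => ∑ i, if (l.get i).1 = a then x i j else 0, ?_, ?_⟩
    · rintro rfl q hq
      obtain ⟨i, rfl⟩ := List.get_of_mem hq
      rw [← hx i]; simp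
    · intro a _
      rw [cnt_eq, Finset.sum_comm]
      refine Finset.sum_congr rfl fun i _ => ?_
      rw [← hx i]
      split_ifs <;> simp
    · intro j
      rw [tms_sum h l (fun a => (∑ i, if (l.get i).1 = a then x i j else 0) * a), key (fun i => x i j)]
      exact hT j
  · rintro ⟨h0, X, hX, hT⟩
    rcases Nat.eq_zero_or_pos m with hm | hm
    · subst hm
      refine ⟨fun _ j => j.elim0, fun i => ?_, fun j => j.elim0⟩
      rw [h0 rfl _ (List.get_mem _ _)]; simp
    · -- for each size a matrix
      have hmat : ∀ a ∈ (tms l).toFinset, ∃ x : Fin l.length → Fin m → ℕ,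
          (∀ i ∈ Finset.univ.filter (fun i : Fin l.length => (l.get i).1 = a),
            ∑ j, x i j = (l.get i).2) ∧
          ∀ j, ∑ i ∈ Finset.univ.filter (fun i : Fin l.length => (l.get i).1 = a), x i j = X j a := by
        intro a ha
        apply exists_matrix
        rw [hX a (List.mem_toFinset.1 ha), cnt_eq, Finset.sum_filter]
      choose! x hx1 hx2 using hmat
      refine ⟨fun i j => if (l.get i).1 = 0 then (if j = ⟨0, hm⟩ then (l.get i).2 else 0)
        else x (l.get i).1 i j, fun i => ?_, fun j => ?_⟩
      · by_cases hz : (l.get i).1 = 0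
        · simp only [hz, if_true]
          rw [Finset.sum_ite_eq' ]
          simp
        · simp only [hz, if_false]
          exact hx1 _ ((mem_tms h l _).2 ⟨hz, i, rfl⟩) i (by simp)
      · rw [← key]
        refine le_trans (le_of_eq ?_) (hT j)
        rw [tms_sum h l (fun a => X j a * a)]
        refine Finset.sum_congr rfl fun a ha => ?_
        rw [← hx2 a ha j, Finset.sum_filter]
        congr 1
        refine Finset.sum_congr rfl fun i _ => ?_
        by_cases h1 : (l.get i).1 = a
        · have h2 : (l.get i).1 ≠ 0 := by rw [h1]; exact ((mem_tms h l _).1 ha).1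
          rw [if_pos h1, if_pos h1]
          beta_reduce
          rw [if_neg h2, h1]
        · rw [if_neg h1, if_neg h1]

end Pool.HMS
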